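import Pool.Agent.H28.BR.Stm3

/-!
# BR3, module T3 (helper95)

Sum over dyadic blocks from the estimate of one block.
-/

set_option autoImplicit false

namespace Pool.Agent.H95.BR3

open Finset Pool.Agent.H28.BR Pool.Agent.H28.BR3

theorem tau_nonneg (s : ℕ) : 0 ≤ tau s := Nat.cast_nonneg _

theorem Psi_nonneg {s : ℕ} {L β : ℝ} (hL : 0 ≤ L) : 0 ≤ Psi s L β := by
  unfold Psi gd nd
  exact Finset.sum_nonneg fun b _ => by positivity

/-- dyadic blocks -/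
theorem dyadic (f : ℕ → ℝ) (hf : ∀ s, 0 ≤ f s) (s0 M : ℕ) (h0 : 1 ≤ s0) :
    ∑ s ∈ Icc s0 M, f s ≤
      ∑ j ∈ range (M + 1), ∑ s ∈ Ico (2 ^ j * s0) (2 * (2 ^ j * s0)), f s := by
  have h : ∀ J : ℕ, ∑ j ∈ range J, ∑ s ∈ Ico (2 ^ j * s0) (2 * (2 ^ j * s0)), f s =
      ∑ s ∈ Ico s0 (2 ^ J * s0), f s := by
    intro J
    induction J with
    | zero => simp
    | succ J ih =>
      have e : 2 ^ (J + 1) * s0 = 2 * (2 ^ J * s0) := by rw [pow_succ]; ring
      rw [Finset.sum_range_succ, ih, e, Finset.sum_Ico_consecutive]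
      · exact Nat.le_mul_of_pos_left s0 (by positivity)
      · omega
  rw [h]
  apply Finset.sum_le_sum_of_subset_of_nonneg
  · intro s hs
    rw [Finset.mem_Icc] at hs
    rw [Finset.mem_Ico]
    refine ⟨hs.1, ?_⟩
    have h1 : M + 1 < 2 ^ (M + 1) := Nat.lt_two_pow_self
    have h2 : 2 ^ (M + 1) ≤ 2 ^ (M + 1) * s0 := Nat.le_mul_of_pos_right _ (by omega)
    omega
  · intro s _ _
    exact hf s

/-- telescoping -/
theorem tele (r : ℝ) (hr : 4 / 3 ≤ r) (u : ℕ → ℝ) (hu : ∀ j, 0 < u j) (hs : ∀ j, u (j + 1) = r * u j)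
    (J : ℕ) : ∑ j ∈ range J, u j / (1 + u j) ^ 2 ≤ 4 := by
  have h : ∀ J : ℕ, ∑ j ∈ range J, u j / (1 + u j) ^ 2 ≤ 4 * (1 / (1 + u 0) - 1 / (1 + u J)) := by
    intro J
    induction J with
    | zero => simp
    | succ J ih =>
      rw [Finset.sum_range_succ]
      have h1 := hu J
      have h2 : u J / (1 + u J) ^ 2 ≤ 4 * (1 / (1 + u J) - 1 / (1 + u (J + 1))) := by
        rw [hs J]
        have h3 : 0 < 1 + r * u J := by nlinarith
        rw [div_sub_div _ _ (by linarith) h3.ne', ← mul_div_assoc, div_le_div_iff₀ (by positivity) (by positivity)]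
        have h4 : u J * (1 + r * u J) ≤ 4 * (r * u J - u J) * (1 + u J) := by
          have h5 : 1 + r * u J ≤ 4 * (r - 1) * (1 + u J) := by nlinarith
          nlinarith
        nlinarith [mul_le_mul_of_nonneg_left h4 (show 0 ≤ 1 + u J by linarith)]
      linarith
  have h1 := h J
  have h2 : 0 < 1 / (1 + u J) := by have := hu J; positivity
  have h3 : 1 / (1 + u 0) ≤ 1 := by
    rw [div_le_one (by have := hu 0; linarith)]
    have := hu 0
    linarith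
  linarith

/-- the exponential decay -/
theorem expo {t : ℝ} (ht : 0 ≤ t) : (1 + t) ^ 4 * Real.exp (-(t / 2)) ≤ 768 := by
  have h1 := Real.pow_div_factorial_le_exp ((1 + t) / 2) (by linarith) 4
  have h2 : ((Nat.factorial 4 : ℕ) : ℝ) = 24 := by norm_num [Nat.factorial]
  rw [h2] at h1
  have h3 : Real.exp ((1 + t) / 2) = Real.exp (1 / 2) * Real.exp (t / 2) := by
    rw [← Real.exp_add]; congr 1; ring
  have h4 : Real.exp (1 / 2) ≤ 2 := by
    have h5 : Real.exp (1 / 2) ^ 2 = Real.exp 1 := by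
      rw [← Real.exp_nat_mul]; norm_num
    nlinarith [Real.exp_one_lt_d9, Real.exp_pos (1 / 2 : ℝ)]
  have h6 : Real.exp (t / 2) * Real.exp (-(t / 2)) = 1 := by
    rw [← Real.exp_add]; simp
  have h7 : (1 + t) ^ 4 ≤ 768 * Real.exp (t / 2) := by
    have h8 : (1 + t) ^ 4 = 384 * (((1 + t) / 2) ^ 4 / 24) := by ring
    rw [h8]
    nlinarith [Real.exp_pos (t / 2)]
  calc (1 + t) ^ 4 * Real.exp (-(t / 2)) ≤ 768 * Real.exp (t / 2) * Real.exp (-(t / 2)) :=
        mul_le_mul_of_nonneg_right h7 (Real.exp_pos _).le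
    _ = 768 := by rw [mul_assoc, h6, mul_one]

/-- the logarithm of the block -/
theorem lg_le {S : ℕ} (hS : 1 ≤ S) {Y : ℝ} (hY : 0 < Y) :
    lg S ≤ (1 + Real.log (1 + Y)) * (1 + (S : ℝ) / Y) := by
  have hS' : (1 : ℝ) ≤ S := by exact_mod_cast hS
  have ht : 0 < (S : ℝ) / Y := by positivity
  have h1 : (S : ℝ) ≤ (1 + Y) * (1 + (S : ℝ) / Y) := by
    have : Y * ((S : ℝ) / Y) = S := by field_simp
    nlinarith
  have h2 : Real.log S ≤ Real.log (1 + Y) + Real.log (1 + (S : ℝ) / Y) := by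
    rw [← Real.log_mul (by linarith) (by linarith)]
    exact Real.log_le_log (by linarith) h1
  have h3 : Real.log (1 + (S : ℝ) / Y) ≤ (S : ℝ) / Y := by
    have := Real.log_le_sub_one_of_pos (show 0 < 1 + (S : ℝ) / Y by linarith)
    linarith
  have h4 : 0 ≤ Real.log (1 + Y) := Real.log_nonneg (by linarith)
  unfold lg
  nlinarith [mul_nonneg h4 ht.le]

theorem lg_pow (s0 j : ℕ) (h0 : 1 ≤ s0) : lg (2 ^ j * s0) ≤ (1 + j) * lg s0 := by
  have h0' : (1 : ℝ) ≤ s0 := by exact_mod_cast h0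
  unfold lg
  push_cast
  rw [Real.log_mul (by positivity) (by positivity), Real.log_pow]
  have h1 : Real.log 2 ≤ 1 := by
    have := Real.log_two_lt_d9
    linarith
  have h2 : 0 ≤ Real.log s0 := Real.log_nonneg h0'
  have h3 : (0 : ℝ) ≤ j := Nat.cast_nonneg j
  nlinarith [mul_nonneg h3 h2, mul_le_mul_of_nonneg_left h1 h3]

/-- the convergent series -/
theorem geo : ∃ K : ℝ, 0 < K ∧ ∀ J : ℕ, ∑ j ∈ range J, (1 + (j : ℝ)) ^ 2 / Real.sqrt 2 ^ j ≤ K := by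
  have hq : ‖(1 / Real.sqrt 2 : ℝ)‖ < 1 := by
    rw [Real.norm_of_nonneg (by positivity), div_lt_one (by positivity)]
    have : Real.sqrt 1 < Real.sqrt 2 := Real.sqrt_lt_sqrt (by norm_num) (by norm_num)
    simpa using this
  have hs0 := summable_pow_mul_geometric_of_norm_lt_one 0 hq
  have hs1 := summable_pow_mul_geometric_of_norm_lt_one 1 hq
  have hs2 := summable_pow_mul_geometric_of_norm_lt_one 2 hq
  have hs : Summable fun j : ℕ => (1 + (j : ℝ)) ^ 2 / Real.sqrt 2 ^ j := by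
    have := (hs0.add (hs1.mul_left 2)).add hs2
    refine this.congr fun j => ?_
    simp only [pow_zero, pow_one]
    rw [one_div, inv_pow, div_eq_mul_inv]
    ring
  refine ⟨∑' j : ℕ, (1 + (j : ℝ)) ^ 2 / Real.sqrt 2 ^ j + 1, ?_, fun J => ?_⟩
  · have : 0 ≤ ∑' j : ℕ, (1 + (j : ℝ)) ^ 2 / Real.sqrt 2 ^ j := tsum_nonneg fun j => by positivity
    linarith
  · have := hs.sum_le_tsum (range J) (fun j _ => by positivity)
    linarith

/-- one block -/
theorem block {C : ℝ} (hC : 0 < C) {S : ℕ} {Y L β : ℝ} (hS : 1 ≤ S) (hY : 0 < Y) (hL : 0 ≤ L)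
    (h : ∑ s ∈ Ico S (2 * S), tau s * Psi s L β ≤
      C * lg S ^ 2 * ((S : ℝ) ^ 2 + Real.sqrt S * L + S * Real.sqrt S * Real.sqrt L)) :
    ∑ s ∈ Ico S (2 * S), tau s / s * Real.exp (-((s : ℝ) / Y)) * Psi s L β ≤
      C * Real.exp (-(1 / (2 * Y))) * (lg S ^ 2 / Real.sqrt S * L +
        (1 + Real.log (1 + Y)) ^ 2 * (768 * (Y * (((S : ℝ) / Y) / (1 + (S : ℝ) / Y) ^ 2)) +
          1536 * (Real.sqrt Y * Real.sqrt L *
            (Real.sqrt ((S : ℝ) / Y) / (1 + Real.sqrt ((S : ℝ) / Y)) ^ 2)))) := by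
  have hS' : (1 : ℝ) ≤ S := by exact_mod_cast hS
  have hS0 : (0 : ℝ) < S := by linarith
  set t : ℝ := (S : ℝ) / Y with htdef
  have ht : 0 < t := by positivity
  set ℓ : ℝ := 1 + Real.log (1 + Y) with hℓ
  have hl0 : 0 ≤ Real.log (1 + Y) := Real.log_nonneg (by linarith)
  have hℓ1 : 1 ≤ ℓ := by linarith
  have hlgS : 0 < lg S := by
    unfold lg
    have := Real.log_nonneg hS'
    linarith
  have hlg : lg S ≤ ℓ * (1 + t) := lg_le hS hY
  have hlg2 : lg S ^ 2 ≤ ℓ ^ 2 * (1 + t) ^ 2 := by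
    rw [← mul_pow]
    exact pow_le_pow_left₀ hlgS.le hlg 2
  have hStY : (S : ℝ) = t * Y := by rw [htdef]; field_simp
  have hsqS : Real.sqrt S * Real.sqrt S = S := Real.mul_self_sqrt hS0.le
  have hsq0 : 0 < Real.sqrt S := Real.sqrt_pos.2 hS0
  have hsqe : Real.sqrt S = Real.sqrt t * Real.sqrt Y := by
    rw [hStY, Real.sqrt_mul ht.le]
  -- step 1
  have h1 : ∑ s ∈ Ico S (2 * S), tau s / s * Real.exp (-((s : ℝ) / Y)) * Psi s L β ≤
      Real.exp (-t) / S * ∑ s ∈ Ico S (2 * S), tau s * Psi s L β := by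
    rw [Finset.mul_sum]
    refine Finset.sum_le_sum fun s hs => ?_
    rw [Finset.mem_Ico] at hs
    have hs1 : (S : ℝ) ≤ s := by exact_mod_cast hs.1
    have h2 : (0 : ℝ) ≤ tau s := tau_nonneg s
    have h3 : Real.exp (-((s : ℝ) / Y)) ≤ Real.exp (-t) := by
      apply Real.exp_le_exp.2
      rw [htdef]
      apply neg_le_neg
      exact div_le_div_of_nonneg_right hs1 hY.le
    have h4 : tau s / s ≤ tau s / S := div_le_div_of_nonneg_left h2 hS0 hs1
    have h5 := Psi_nonneg (s := s) (β := β) hL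
    calc tau s / s * Real.exp (-((s : ℝ) / Y)) * Psi s L β
        ≤ tau s / S * Real.exp (-t) * Psi s L β := by
          apply mul_le_mul_of_nonneg_right _ h5
          exact mul_le_mul h4 h3 (Real.exp_pos _).le (by positivity)
      _ = Real.exp (-t) / S * (tau s * Psi s L β) := by ring
  -- step 2
  have h2 : Real.exp (-t) ≤ Real.exp (-(1 / (2 * Y))) * Real.exp (-(t / 2)) := by
    rw [← Real.exp_add]
    apply Real.exp_le_exp.2
    have : 1 / (2 * Y) ≤ t / 2 := by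
      rw [htdef, div_div, mul_comm Y 2]
      exact div_le_div_of_nonneg_right hS' (by linarith)
    linarith
  set e1 : ℝ := Real.exp (-(1 / (2 * Y))) with he1
  have he1' : 0 < e1 := Real.exp_pos _
  set e2 : ℝ := Real.exp (-(t / 2)) with he2
  have he2' : 0 < e2 := Real.exp_pos _
  have he2'' : e2 ≤ 1 := by
    rw [he2]
    exact Real.exp_le_one_iff.2 (by linarith)
  have h768 : (1 + t) ^ 4 * e2 ≤ 768 := expo ht.le
  -- the three terms
  have hA : e2 * lg S ^ 2 * S ≤ ℓ ^ 2 * (768 * (Y * (t / (1 + t) ^ 2))) := by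
    have h3 : e2 * (1 + t) ^ 2 ≤ 768 / (1 + t) ^ 2 := by
      rw [le_div_iff₀ (by positivity)]
      calc e2 * (1 + t) ^ 2 * (1 + t) ^ 2 = (1 + t) ^ 4 * e2 := by ring
        _ ≤ 768 := h768
    calc e2 * lg S ^ 2 * S ≤ e2 * (ℓ ^ 2 * (1 + t) ^ 2) * S := by
          apply mul_le_mul_of_nonneg_right _ hS0.le
          exact mul_le_mul_of_nonneg_left hlg2 he2'.le
      _ = (e2 * (1 + t) ^ 2) * (ℓ ^ 2 * (t * Y)) := by rw [← hStY]; ring
      _ ≤ 768 / (1 + t) ^ 2 * (ℓ ^ 2 * (t * Y)) :=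
          mul_le_mul_of_nonneg_right h3 (by positivity)
      _ = ℓ ^ 2 * (768 * (Y * (t / (1 + t) ^ 2))) := by ring
  have hB : e2 * lg S ^ 2 * (L / Real.sqrt S) ≤ lg S ^ 2 / Real.sqrt S * L := by
    have h3 : 0 ≤ lg S ^ 2 * (L / Real.sqrt S) := by positivity
    calc e2 * lg S ^ 2 * (L / Real.sqrt S) = e2 * (lg S ^ 2 * (L / Real.sqrt S)) := by ring
      _ ≤ 1 * (lg S ^ 2 * (L / Real.sqrt S)) := mul_le_mul_of_nonneg_right he2'' h3
      _ = lg S ^ 2 / Real.sqrt S * L := by ring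
  have hD : e2 * lg S ^ 2 * (Real.sqrt S * Real.sqrt L) ≤
      ℓ ^ 2 * (1536 * (Real.sqrt Y * Real.sqrt L * (Real.sqrt t / (1 + Real.sqrt t) ^ 2))) := by
    set u : ℝ := Real.sqrt t with hu
    have hu0 : 0 ≤ u := Real.sqrt_nonneg _
    have huu : u * u = t := Real.mul_self_sqrt ht.le
    have h4 : (1 + u) ^ 2 ≤ 2 * (1 + t) := by nlinarith [sq_nonneg (u - 1)]
    have h3 : e2 * (1 + t) ^ 2 ≤ 1536 / (1 + u) ^ 2 := by
      rw [le_div_iff₀ (by positivity)]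
      have h5 : (1 + t) ^ 2 * (1 + u) ^ 2 ≤ 2 * (1 + t) ^ 4 := by
        have h6 : (1 + t) ^ 2 * (1 + u) ^ 2 ≤ (1 + t) ^ 2 * (2 * (1 + t)) :=
          mul_le_mul_of_nonneg_left h4 (by positivity)
        have h7 : (1 + t) ^ 2 * (2 * (1 + t)) ≤ 2 * (1 + t) ^ 4 := by
          have : (1 + t) ^ 3 * 1 ≤ (1 + t) ^ 3 * (1 + t) :=
            mul_le_mul_of_nonneg_left (by linarith) (by positivity)
          nlinarith
        linarith
      calc e2 * (1 + t) ^ 2 * (1 + u) ^ 2 = e2 * ((1 + t) ^ 2 * (1 + u) ^ 2) := by ring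
        _ ≤ e2 * (2 * (1 + t) ^ 4) := mul_le_mul_of_nonneg_left h5 he2'.le
        _ ≤ 1536 := by nlinarith
    calc e2 * lg S ^ 2 * (Real.sqrt S * Real.sqrt L)
        ≤ e2 * (ℓ ^ 2 * (1 + t) ^ 2) * (Real.sqrt S * Real.sqrt L) := by
          apply mul_le_mul_of_nonneg_right _ (by positivity)
          exact mul_le_mul_of_nonneg_left hlg2 he2'.le
      _ = (e2 * (1 + t) ^ 2) * (ℓ ^ 2 * (u * Real.sqrt Y * Real.sqrt L)) := by rw [hsqe]; ring
      _ ≤ 1536 / (1 + u) ^ 2 * (ℓ ^ 2 * (u * Real.sqrt Y * Real.sqrt L)) :=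
          mul_le_mul_of_nonneg_right h3 (by positivity)
      _ = ℓ ^ 2 * (1536 * (Real.sqrt Y * Real.sqrt L * (u / (1 + u) ^ 2))) := by ring
  -- conclusion
  have hX : Real.exp (-t) / S * ∑ s ∈ Ico S (2 * S), tau s * Psi s L β ≤
      e1 * e2 / S * (C * lg S ^ 2 * ((S : ℝ) ^ 2 + Real.sqrt S * L + S * Real.sqrt S * Real.sqrt L)) := by
    apply mul_le_mul (div_le_div_of_nonneg_right h2 hS0.le) h
    · exact Finset.sum_nonneg fun s _ => mul_nonneg (tau_nonneg s) (Psi_nonneg hL)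
    · positivity
  have hE : e1 * e2 / S * (C * lg S ^ 2 * ((S : ℝ) ^ 2 + Real.sqrt S * L + S * Real.sqrt S * Real.sqrt L)) =
      C * e1 * (e2 * lg S ^ 2 * S + e2 * lg S ^ 2 * (L / Real.sqrt S) +
        e2 * lg S ^ 2 * (Real.sqrt S * Real.sqrt L)) := by
    have h3 : Real.sqrt S * L / S = L / Real.sqrt S := by
      rw [div_eq_div_iff hS0.ne' hsq0.ne']
      calc Real.sqrt S * L * Real.sqrt S = (Real.sqrt S * Real.sqrt S) * L := by ring
        _ = L * S := by rw [hsqS]; ring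
    have h4 : e1 * e2 / S * (C * lg S ^ 2 * ((S : ℝ) ^ 2 + Real.sqrt S * L + S * Real.sqrt S * Real.sqrt L)) =
        C * e1 * (e2 * lg S ^ 2 * ((S : ℝ) ^ 2 / S) + e2 * lg S ^ 2 * (Real.sqrt S * L / S) +
          e2 * lg S ^ 2 * (S / S * (Real.sqrt S * Real.sqrt L))) := by ring
    rw [h4, h3, div_self hS0.ne', one_mul]
    have h5 : (S : ℝ) ^ 2 / S = S := by field_simp
    rw [h5]
  calc _ ≤ _ := h1
    _ ≤ _ := hX
    _ = _ := hE
    _ ≤ _ := by
      apply mul_le_mul_of_nonneg_left _ (by positivity)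
      have := add_le_add (add_le_add hA hB) hD
      calc _ ≤ _ := this
        _ = _ := by ring

theorem t_T3 (psd : S_PSD) : S_T3 := by
  obtain ⟨C, hC, hpsd⟩ := psd
  obtain ⟨K, hK, hgeo⟩ := geo
  refine ⟨C * (K + 3072 + 6144), by positivity, fun s0 M Y L β h0 hY hL => ?_⟩
  have h0' : (1 : ℝ) ≤ s0 := by exact_mod_cast h0
  have hlg0 : 0 < lg s0 := by
    unfold lg
    have := Real.log_nonneg h0'
    linarith
  have hd := dyadic (fun s => tau s / s * Real.exp (-((s : ℝ) / Y)) * Psi s L β)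
    (fun s => mul_nonneg (mul_nonneg (div_nonneg (tau_nonneg s) (Nat.cast_nonneg s)) (Real.exp_pos _).le) (Psi_nonneg hL)) s0 M h0
  refine hd.trans ?_
  have hpos : ∀ j : ℕ, 1 ≤ 2 ^ j * s0 := fun j => Nat.mul_pos (by positivity) h0
  have hb : ∀ j ∈ range (M + 1), ∑ s ∈ Ico (2 ^ j * s0) (2 * (2 ^ j * s0)),
      tau s / s * Real.exp (-((s : ℝ) / Y)) * Psi s L β ≤
      C * Real.exp (-(1 / (2 * Y))) * (lg (2 ^ j * s0) ^ 2 / Real.sqrt ((2 ^ j * s0 : ℕ) : ℝ) * L +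
        (1 + Real.log (1 + Y)) ^ 2 * (768 * (Y * ((((2 ^ j * s0 : ℕ) : ℝ) / Y) /
          (1 + ((2 ^ j * s0 : ℕ) : ℝ) / Y) ^ 2)) +
          1536 * (Real.sqrt Y * Real.sqrt L *
            (Real.sqrt (((2 ^ j * s0 : ℕ) : ℝ) / Y) / (1 + Real.sqrt (((2 ^ j * s0 : ℕ) : ℝ) / Y)) ^ 2)))) :=
    fun j _ => block hC (hpos j) hY hL (hpsd _ L β (hpos j) hL)
  refine (Finset.sum_le_sum hb).trans ?_
  rw [← Finset.mul_sum, Finset.sum_add_distrib, ← Finset.sum_mul, ← Finset.mul_sum,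
    Finset.sum_add_distrib, ← Finset.mul_sum, ← Finset.mul_sum, ← Finset.mul_sum, ← Finset.mul_sum]
  have hT1 := tele 2 (by norm_num) (fun j : ℕ => ((2 ^ j * s0 : ℕ) : ℝ) / Y)
    (fun j => div_pos (by exact_mod_cast hpos j) hY)
    (fun j => by push_cast; rw [pow_succ]; ring) (M + 1)
  have hT2 := tele (Real.sqrt 2) (by
      apply Real.le_sqrt_of_sq_le
      norm_num) (fun j : ℕ => Real.sqrt (((2 ^ j * s0 : ℕ) : ℝ) / Y))
    (fun j => Real.sqrt_pos.2 (div_pos (by exact_mod_cast hpos j) hY))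
    (fun j => by
      rw [← Real.sqrt_mul (by norm_num)]
      congr 1
      push_cast
      rw [pow_succ]
      ring) (M + 1)
  have hT3 : ∑ j ∈ range (M + 1), lg (2 ^ j * s0) ^ 2 / Real.sqrt ((2 ^ j * s0 : ℕ) : ℝ) ≤
      K * (lg s0 ^ 2 / Real.sqrt s0) := by
    calc ∑ j ∈ range (M + 1), lg (2 ^ j * s0) ^ 2 / Real.sqrt ((2 ^ j * s0 : ℕ) : ℝ)
        ≤ ∑ j ∈ range (M + 1), (1 + (j : ℝ)) ^ 2 / Real.sqrt 2 ^ j * (lg s0 ^ 2 / Real.sqrt s0) := by
          refine Finset.sum_le_sum fun j _ => ?_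
          have h1 : Real.sqrt ((2 ^ j * s0 : ℕ) : ℝ) = Real.sqrt 2 ^ j * Real.sqrt s0 := by
            push_cast
            rw [Real.sqrt_mul (by positivity)]
            congr 1
            rw [← Real.sqrt_sq (show 0 ≤ Real.sqrt 2 ^ j by positivity), ← pow_mul, mul_comm j 2, pow_mul,
              Real.sq_sqrt (by norm_num)]
          rw [h1, div_mul_div_comm]
          apply div_le_div_of_nonneg_right _ (by positivity)
          rw [← mul_pow]
          apply pow_le_pow_left₀ _ (lg_pow s0 j h0)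
          unfold lg
          have : (1 : ℝ) ≤ ((2 ^ j * s0 : ℕ) : ℝ) := by exact_mod_cast hpos j
          have := Real.log_nonneg this
          linarith
      _ = (∑ j ∈ range (M + 1), (1 + (j : ℝ)) ^ 2 / Real.sqrt 2 ^ j) * (lg s0 ^ 2 / Real.sqrt s0) := by
          rw [Finset.sum_mul]
      _ ≤ K * (lg s0 ^ 2 / Real.sqrt s0) :=
          mul_le_mul_of_nonneg_right (hgeo _) (by positivity)
  set e1 : ℝ := Real.exp (-(1 / (2 * Y))) with he1
  have he1' : 0 < e1 := Real.exp_pos _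
  set T1 := ∑ j ∈ range (M + 1), (((2 ^ j * s0 : ℕ) : ℝ) / Y) / (1 + ((2 ^ j * s0 : ℕ) : ℝ) / Y) ^ 2
  set T2 := ∑ j ∈ range (M + 1), Real.sqrt (((2 ^ j * s0 : ℕ) : ℝ) / Y) /
    (1 + Real.sqrt (((2 ^ j * s0 : ℕ) : ℝ) / Y)) ^ 2
  set T3 := ∑ j ∈ range (M + 1), lg (2 ^ j * s0) ^ 2 / Real.sqrt ((2 ^ j * s0 : ℕ) : ℝ)
  set ℓ : ℝ := 1 + Real.log (1 + Y) with hℓ
  have hq : (0 : ℝ) ≤ Real.sqrt Y * Real.sqrt L := by positivity
  have hB0 : 0 ≤ lg s0 ^ 2 / Real.sqrt s0 * L := by positivity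
  have i1 : T3 * L ≤ (K + 3072 + 6144) * (lg s0 ^ 2 / Real.sqrt s0 * L) := by
    calc T3 * L ≤ K * (lg s0 ^ 2 / Real.sqrt s0) * L := mul_le_mul_of_nonneg_right hT3 hL
      _ = K * (lg s0 ^ 2 / Real.sqrt s0 * L) := by ring
      _ ≤ _ := mul_le_mul_of_nonneg_right (by linarith) hB0
  have i2 : 768 * (Y * T1) + 1536 * (Real.sqrt Y * Real.sqrt L * T2) ≤
      (K + 3072 + 6144) * (Y + Real.sqrt Y * Real.sqrt L) := by
    have j1 : Y * T1 ≤ Y * 4 := mul_le_mul_of_nonneg_left hT1 hY.le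
    have j2 : Real.sqrt Y * Real.sqrt L * T2 ≤ Real.sqrt Y * Real.sqrt L * 4 :=
      mul_le_mul_of_nonneg_left hT2 hq
    nlinarith [mul_nonneg hK.le hY.le, mul_nonneg hK.le hq]
  have i3 : ℓ ^ 2 * (768 * (Y * T1) + 1536 * (Real.sqrt Y * Real.sqrt L * T2)) ≤
      ℓ ^ 2 * ((K + 3072 + 6144) * (Y + Real.sqrt Y * Real.sqrt L)) :=
    mul_le_mul_of_nonneg_left i2 (by positivity)
  calc C * e1 * (T3 * L + ℓ ^ 2 * (768 * (Y * T1) + 1536 * (Real.sqrt Y * Real.sqrt L * T2)))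
      ≤ C * e1 * ((K + 3072 + 6144) * (lg s0 ^ 2 / Real.sqrt s0 * L) +
        ℓ ^ 2 * ((K + 3072 + 6144) * (Y + Real.sqrt Y * Real.sqrt L))) :=
        mul_le_mul_of_nonneg_left (add_le_add i1 i3) (by positivity)
    _ = _ := by ring

end Pool.Agent.H95.BR3
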