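import Pool.Agent.H28.BR.Stm

/-!
# Project BR, module AGS: the double sum over `a` and `g`
-/

set_option autoImplicit false

namespace Pool.Agent.H95.BR

open Finset Pool.Agent.H28.BR

/-- the weight of a pair -/
theorem wt_le (κ a g m : ℝ) (hκ : 0 < κ) (ha : 1 ≤ a) (hg : 1 ≤ g) (ham : a ^ 2 ≤ m) (hgm : g ≤ m) :
    m ^ (-(1 / 2 + κ)) ≤ a ^ (-(1 + κ)) * g ^ (-(κ / 2)) := by
  have hm : 0 < m := by nlinarith
  have e1 : m ^ (-(1 / 2 + κ)) = m ^ (-((1 + κ) / 2)) * m ^ (-(κ / 2)) := by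
    rw [← Real.rpow_add hm]; congr 1; ring
  have e2 : m ^ (-((1 + κ) / 2)) ≤ a ^ (-(1 + κ)) := by
    calc m ^ (-((1 + κ) / 2)) ≤ (a ^ 2) ^ (-((1 + κ) / 2)) :=
          Real.rpow_le_rpow_of_nonpos (by positivity) ham (by linarith)
      _ = a ^ (-(1 + κ)) := by
          rw [← Real.rpow_natCast a 2, ← Real.rpow_mul (by linarith)]
          congr 1; push_cast; ring
  have e3 : m ^ (-(κ / 2)) ≤ g ^ (-(κ / 2)) :=
    Real.rpow_le_rpow_of_nonpos (by linarith) hgm (by linarith)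
  rw [e1]
  exact mul_le_mul e2 e3 (Real.rpow_nonneg hm.le _) (Real.rpow_nonneg (by linarith) _)

/-- the geometric mean -/
theorem min_le' (κ m q : ℝ) (hκ : 0 < κ) (hκ1 : κ ≤ 1 / 8) (hm : 0 < m) (hq : 0 < q) :
    min (1 / m) (1 / q) ≤ m ^ (-(1 / 2 + κ)) * q ^ (κ - 1 / 2) := by
  have h0 : 0 < min (1 / m) (1 / q) := lt_min (by positivity) (by positivity)
  have e1 : min (1 / m) (1 / q) = min (1 / m) (1 / q) ^ (1 / 2 + κ) * min (1 / m) (1 / q) ^ (1 / 2 - κ) := by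
    rw [← Real.rpow_add h0]
    have : (1 / 2 + κ + (1 / 2 - κ)) = 1 := by ring
    rw [this, Real.rpow_one]
  have e2 : min (1 / m) (1 / q) ^ (1 / 2 + κ) ≤ m ^ (-(1 / 2 + κ)) := by
    rw [Real.rpow_neg hm.le, ← Real.inv_rpow hm.le, ← one_div]
    exact Real.rpow_le_rpow h0.le (min_le_left _ _) (by linarith)
  have e3 : min (1 / m) (1 / q) ^ (1 / 2 - κ) ≤ q ^ (κ - 1 / 2) := by
    have : κ - 1 / 2 = -(1 / 2 - κ) := by ring
    rw [this, Real.rpow_neg hq.le, ← Real.inv_rpow hq.le, ← one_div]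
    exact Real.rpow_le_rpow h0.le (min_le_right _ _) (by linarith)
  calc min (1 / m) (1 / q) = _ := e1
    _ ≤ _ := mul_le_mul e2 e3 (Real.rpow_nonneg h0.le _) (Real.rpow_nonneg hm.le _)

/-- the size of the second term -/
theorem q_le (κ q X : ℝ) (hκ1 : κ ≤ 1 / 8) (hq : 1 ≤ q) (hX : 1 ≤ X) (hqX : q ^ 2 ≤ 16 * X) :
    q ^ (3 / 2 + κ) * (1 + Real.log q) ≤ 144 * X ^ (7 / 8 : ℝ) := by
  have hq0 : 0 < q := by linarith
  have h8 : 1 ≤ q ^ (1 / 8 : ℝ) := Real.one_le_rpow hq (by norm_num)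
  have hl : Real.log q ≤ q ^ (1 / 8 : ℝ) / (1 / 8) := Real.log_le_rpow_div hq0.le (by norm_num)
  have hl0 : 0 ≤ Real.log q := Real.log_nonneg hq
  have e1 : 1 + Real.log q ≤ 9 * q ^ (1 / 8 : ℝ) := by linarith
  have e2 : q ^ (3 / 2 + κ) ≤ q ^ (13 / 8 : ℝ) := Real.rpow_le_rpow_of_exponent_le hq (by linarith)
  have e3 : q ^ (3 / 2 + κ) * (1 + Real.log q) ≤ q ^ (13 / 8 : ℝ) * (9 * q ^ (1 / 8 : ℝ)) :=
    mul_le_mul e2 e1 (by linarith) (Real.rpow_nonneg hq0.le _)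
  have e4 : q ^ (13 / 8 : ℝ) * (9 * q ^ (1 / 8 : ℝ)) = 9 * q ^ (7 / 4 : ℝ) := by
    have : q ^ (7 / 4 : ℝ) = q ^ (13 / 8 : ℝ) * q ^ (1 / 8 : ℝ) := by
      rw [← Real.rpow_add hq0]; norm_num
    rw [this]; ring
  have e5 : q ^ (7 / 4 : ℝ) = (q ^ 2) ^ (7 / 8 : ℝ) := by
    rw [← Real.rpow_natCast q 2, ← Real.rpow_mul hq0.le]; norm_num
  have e6 : (q ^ 2) ^ (7 / 8 : ℝ) ≤ (16 * X) ^ (7 / 8 : ℝ) :=
    Real.rpow_le_rpow (by positivity) hqX (by norm_num)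
  have e7 : (16 * X) ^ (7 / 8 : ℝ) = (16 : ℝ) ^ (7 / 8 : ℝ) * X ^ (7 / 8 : ℝ) :=
    Real.mul_rpow (by norm_num) (by linarith)
  have e8 : (16 : ℝ) ^ (7 / 8 : ℝ) ≤ 16 := by
    calc (16 : ℝ) ^ (7 / 8 : ℝ) ≤ (16 : ℝ) ^ (1 : ℝ) :=
          Real.rpow_le_rpow_of_exponent_le (by norm_num) (by norm_num)
      _ = 16 := Real.rpow_one _
  have hX0 : 0 ≤ X ^ (7 / 8 : ℝ) := Real.rpow_nonneg (by linarith) _
  calc q ^ (3 / 2 + κ) * (1 + Real.log q) ≤ 9 * q ^ (7 / 4 : ℝ) := by rw [← e4]; exact e3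
    _ ≤ 9 * ((16 : ℝ) ^ (7 / 8 : ℝ) * X ^ (7 / 8 : ℝ)) := by rw [e5, ← e7]; linarith
    _ ≤ 9 * (16 * X ^ (7 / 8 : ℝ)) := by
        have := mul_le_mul_of_nonneg_right e8 hX0
        linarith
    _ = _ := by ring

/-- the second term -/
theorem second_le (κ m q X : ℝ) (hκ : 0 < κ) (hκ1 : κ ≤ 1 / 8) (hm : 1 ≤ m) (hmq : m ≤ q) (hX : 1 ≤ X)
    (hqX : q ^ 2 ≤ 16 * X) :
    q * (1 + Real.log q) ≤ m ^ (-(1 / 2 + κ)) * (144 * X ^ (7 / 8 : ℝ)) := by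
  have hq : 1 ≤ q := hm.trans hmq
  have hq0 : 0 < q := by linarith
  have hl0 : 0 ≤ Real.log q := Real.log_nonneg hq
  have e1 : q ^ (-(1 / 2 + κ)) ≤ m ^ (-(1 / 2 + κ)) :=
    Real.rpow_le_rpow_of_nonpos (by linarith) hmq (by linarith)
  have e2 : q = q ^ (-(1 / 2 + κ)) * q ^ (3 / 2 + κ) := by
    rw [← Real.rpow_add hq0]
    have : -(1 / 2 + κ) + (3 / 2 + κ) = 1 := by ring
    rw [this, Real.rpow_one]
  have h2 : 0 ≤ q ^ (3 / 2 + κ) * (1 + Real.log q) := mul_nonneg (Real.rpow_nonneg hq0.le _) (by linarith)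
  calc q * (1 + Real.log q) = q ^ (-(1 / 2 + κ)) * (q ^ (3 / 2 + κ) * (1 + Real.log q)) := by
        rw [← mul_assoc, ← e2]
    _ ≤ m ^ (-(1 / 2 + κ)) * (q ^ (3 / 2 + κ) * (1 + Real.log q)) := mul_le_mul_of_nonneg_right e1 h2
    _ ≤ m ^ (-(1 / 2 + κ)) * (144 * X ^ (7 / 8 : ℝ)) :=
        mul_le_mul_of_nonneg_left (q_le κ q X hκ1 hq hX hqX) (Real.rpow_nonneg (by linarith) _)

/-- a finite part of a convergent series -/
theorem sum_le_Z (s : ℝ) (hs : 0 < s) (N : ℕ) :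
    ∑ n ∈ Icc 1 N, (n : ℝ) ^ (-(1 + s)) ≤ ∑' n : ℕ, (n : ℝ) ^ (-(1 + s)) := by
  refine Summable.sum_le_tsum _ (fun n _ => Real.rpow_nonneg (Nat.cast_nonneg _) _) ?_
  exact Real.summable_nat_rpow.mpr (by linarith)

/-- **AGS** -/
theorem t_AGS (hT : S_TMG) : S_AGS := by
  intro κ hκ hκ1
  obtain ⟨C, hC, hT⟩ := hT
  set Z1 : ℝ := ∑' n : ℕ, (n : ℝ) ^ (-(1 + κ)) with hZ1
  set Z2 : ℝ := ∑' n : ℕ, (n : ℝ) ^ (-(1 + κ / 2)) with hZ2
  set Z3 : ℝ := ∑' n : ℕ, (n : ℝ) ^ (-(1 + 1) : ℝ) with hZ3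
  have hZ10 : 0 ≤ Z1 := tsum_nonneg (fun n => Real.rpow_nonneg (Nat.cast_nonneg _) _)
  have hZ20 : 0 ≤ Z2 := tsum_nonneg (fun n => Real.rpow_nonneg (Nat.cast_nonneg _) _)
  have hZ30 : 0 ≤ Z3 := tsum_nonneg (fun n => Real.rpow_nonneg (Nat.cast_nonneg _) _)
  refine ⟨C * (144 * (Z1 * Z2) + Z3 + 1), by positivity, ?_⟩
  intro θ b q X hX hA A G M
  have hq1 : (1 : ℝ) ≤ q := by exact_mod_cast hA.1
  have hX1 : (1 : ℝ) ≤ X := by exact_mod_cast hX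
  have hqX : (q : ℝ) ^ 2 ≤ 16 * X := by exact_mod_cast hA.2.1
  have hlg : 0 ≤ lg X := by
    unfold lg; have := Real.log_nonneg hX1; linarith
  set Qk : ℝ := (q : ℝ) ^ (κ - 1 / 2) with hQk
  have hQk0 : 0 ≤ Qk := Real.rpow_nonneg (by linarith) _
  set X7 : ℝ := (X : ℝ) ^ (7 / 8 : ℝ) with hX7
  have hX70 : 0 ≤ X7 := Real.rpow_nonneg (by linarith) _
  -- one term
  have hterm : ∀ a ∈ Icc 1 A, ∀ g ∈ Icc 1 G, 1 / (g : ℝ) * TT X θ (Nat.lcm (a ^ 2) g) g M ≤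
      C * ((X * Qk + 144 * X7) * ((a : ℝ) ^ (-(1 + κ)) * (g : ℝ) ^ (-(1 + κ / 2))) +
        Real.sqrt X * lg X * (g : ℝ) ^ (-(1 + 1) : ℝ)) := by
    intro a ha g hg
    have ha1 : 1 ≤ a := (mem_Icc.mp ha).1
    have hg1 : 1 ≤ g := (mem_Icc.mp hg).1
    set m := Nat.lcm (a ^ 2) g with hm
    have hm0 : 0 < m := Nat.lcm_pos (by positivity) (by omega)
    have ham : a ^ 2 ≤ m := Nat.le_of_dvd hm0 (Nat.dvd_lcm_left _ _)
    have hgm : g ≤ m := Nat.le_of_dvd hm0 (Nat.dvd_lcm_right _ _)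
    have ha1' : (1 : ℝ) ≤ a := by exact_mod_cast ha1
    have hg1' : (1 : ℝ) ≤ g := by exact_mod_cast hg1
    have ham' : (a : ℝ) ^ 2 ≤ m := by exact_mod_cast ham
    have hgm' : (g : ℝ) ≤ m := by exact_mod_cast hgm
    have hm1' : (1 : ℝ) ≤ m := by exact_mod_cast hm0
    have hg0 : (0 : ℝ) < g := by linarith
    have hW := wt_le κ a g m hκ ha1' hg1' ham' hgm'
    set w : ℝ := (m : ℝ) ^ (-(1 / 2 + κ)) with hw
    have hw0 : 0 ≤ w := Real.rpow_nonneg (by linarith) _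
    have hmin := min_le' κ m q hκ hκ1 (by linarith) (by linarith)
    rw [← hw, ← hQk] at hmin
    have hsec : (if m ≤ q then (q : ℝ) * (1 + Real.log q) else 0) ≤ w * (144 * X7) := by
      split_ifs with h
      · exact second_le κ m q X hκ hκ1 hm1' (by exact_mod_cast h) hX1 hqX
      · positivity
    have h1 := hT θ b q X hX hA m g M hm0 hg1
    have h2 : TT X θ m g M ≤ C * ((X * Qk + 144 * X7) * w + Real.sqrt X / (g : ℝ) ^ 2 * lg X) := by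
      refine h1.trans (mul_le_mul_of_nonneg_left ?_ hC.le)
      have h3 : (X : ℝ) * min (1 / (m : ℝ)) (1 / (q : ℝ)) ≤ X * (w * Qk) :=
        mul_le_mul_of_nonneg_left hmin (by linarith)
      nlinarith
    have hg3 : (g : ℝ) ^ (-(1 + 1) : ℝ) = 1 / (g : ℝ) ^ 2 := by
      rw [Real.rpow_neg hg0.le, one_div]
      norm_num
    have h4 : 1 / (g : ℝ) * w ≤ (a : ℝ) ^ (-(1 + κ)) * (g : ℝ) ^ (-(1 + κ / 2)) := by
      have e : (g : ℝ) ^ (-(1 + κ / 2)) = 1 / (g : ℝ) * (g : ℝ) ^ (-(κ / 2)) := by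
        have : -(1 + κ / 2) = -1 + -(κ / 2) := by ring
        rw [this, Real.rpow_add hg0, Real.rpow_neg_one, one_div]
      rw [e]
      calc 1 / (g : ℝ) * w ≤ 1 / (g : ℝ) * ((a : ℝ) ^ (-(1 + κ)) * (g : ℝ) ^ (-(κ / 2))) :=
            mul_le_mul_of_nonneg_left hW (by positivity)
        _ = _ := by ring
    have h5 : 1 / (g : ℝ) * (Real.sqrt X / (g : ℝ) ^ 2 * lg X) ≤
        Real.sqrt X * lg X * (g : ℝ) ^ (-(1 + 1) : ℝ) := by
      rw [hg3]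
      have h6 : 1 / (g : ℝ) ≤ 1 := by rw [div_le_one hg0]; exact hg1'
      calc 1 / (g : ℝ) * (Real.sqrt X / (g : ℝ) ^ 2 * lg X)
          ≤ 1 * (Real.sqrt X / (g : ℝ) ^ 2 * lg X) :=
            mul_le_mul_of_nonneg_right h6 (by positivity)
        _ = _ := by ring
    calc 1 / (g : ℝ) * TT X θ m g M
        ≤ 1 / (g : ℝ) * (C * ((X * Qk + 144 * X7) * w + Real.sqrt X / (g : ℝ) ^ 2 * lg X)) :=
          mul_le_mul_of_nonneg_left h2 (by positivity)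
      _ = C * ((X * Qk + 144 * X7) * (1 / (g : ℝ) * w) +
            1 / (g : ℝ) * (Real.sqrt X / (g : ℝ) ^ 2 * lg X)) := by ring
      _ ≤ _ := by
          refine mul_le_mul_of_nonneg_left (add_le_add ?_ h5) hC.le
          exact mul_le_mul_of_nonneg_left h4 (by positivity)
  -- the sum
  have hS1 := sum_le_Z κ hκ A
  have hS2 := sum_le_Z (κ / 2) (by linarith) G
  have hS3 := sum_le_Z 1 one_pos G
  have hS10 : 0 ≤ ∑ a ∈ Icc 1 A, (a : ℝ) ^ (-(1 + κ)) :=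
    sum_nonneg (fun n _ => Real.rpow_nonneg (Nat.cast_nonneg _) _)
  have hS20 : 0 ≤ ∑ g ∈ Icc 1 G, (g : ℝ) ^ (-(1 + κ / 2)) :=
    sum_nonneg (fun n _ => Real.rpow_nonneg (Nat.cast_nonneg _) _)
  have hsum : ∑ a ∈ Icc 1 A, ∑ g ∈ Icc 1 G,
      C * ((X * Qk + 144 * X7) * ((a : ℝ) ^ (-(1 + κ)) * (g : ℝ) ^ (-(1 + κ / 2))) +
        Real.sqrt X * lg X * (g : ℝ) ^ (-(1 + 1) : ℝ)) =
      C * ((X * Qk + 144 * X7) * ((∑ a ∈ Icc 1 A, (a : ℝ) ^ (-(1 + κ))) *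
        ∑ g ∈ Icc 1 G, (g : ℝ) ^ (-(1 + κ / 2))) +
        A * (Real.sqrt X * lg X) * ∑ g ∈ Icc 1 G, (g : ℝ) ^ (-(1 + 1) : ℝ)) := by
    simp_rw [← mul_sum, sum_add_distrib, ← mul_sum]
    rw [sum_const, Nat.card_Icc, nsmul_eq_mul, sum_mul]
    simp only [Nat.add_sub_cancel]
    ring
  calc ∑ a ∈ Icc 1 A, ∑ g ∈ Icc 1 G, 1 / (g : ℝ) * TT X θ (Nat.lcm (a ^ 2) g) g M
      ≤ _ := sum_le_sum (fun a ha => sum_le_sum (fun g hg => hterm a ha g hg))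
    _ = _ := hsum
    _ ≤ C * ((X * Qk + 144 * X7) * (Z1 * Z2) + A * (Real.sqrt X * lg X) * Z3) := by
        refine mul_le_mul_of_nonneg_left (add_le_add ?_ ?_) hC.le
        · exact mul_le_mul_of_nonneg_left (mul_le_mul hS1 hS2 hS20 hZ10) (by positivity)
        · exact mul_le_mul_of_nonneg_left hS3 (by positivity)
    _ ≤ C * (144 * (Z1 * Z2) + Z3 + 1) * (X * Qk + X7 + A * Real.sqrt X * lg X) := by
        have h0 : 0 ≤ Z1 * Z2 := by positivity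
        have h1 : 0 ≤ (X : ℝ) * Qk := by positivity
        have h2 : 0 ≤ (A : ℝ) * Real.sqrt X * lg X := by positivity
        rw [mul_assoc C]
        refine mul_le_mul_of_nonneg_left ?_ hC.le
        nlinarith [mul_nonneg h0 h1, mul_nonneg h0 h2, mul_nonneg hZ30 h1, mul_nonneg hZ30 hX70,
          mul_nonneg h0 hX70, mul_nonneg hZ30 h2]

end Pool.Agent.H95.BR
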